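import Pool.Agent.Lib_helper93.Limit

open Complex Set Metric Filter
open scoped Real Topology ContDiff

set_option linter.unusedSectionVars false

namespace Pool.Agent.Lib_helper93

/-- Complex two-space. -/
abbrev E2 : Type := EuclideanSpace ℂ (Fin 2)

/-- The shear `z ↦ z + p (z j) e_i`. -/
noncomputable def shear (i j : Fin 2) (hij : i ≠ j) (p : ℂ → ℂ) : Equiv.Perm E2 where
  toFun z := z + EuclideanSpace.single i (p (z j))
  invFun z := z - EuclideanSpace.single i (p (z j))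
  left_inv z := by
    have : (z + EuclideanSpace.single i (p (z j)) : E2) j = z j := by
      simp [hij.symm]
    simp only [this]
    abel
  right_inv z := by
    have : (z - EuclideanSpace.single i (p (z j)) : E2) j = z j := by
      simp [hij.symm]
    simp only [this]
    abel

theorem shear_apply {i j : Fin 2} (hij : i ≠ j) (p : ℂ → ℂ) (z : E2) :
    shear i j hij p z = z + EuclideanSpace.single i (p (z j)) := rfl

theorem shear_inv_apply {i j : Fin 2} (hij : i ≠ j) (p : ℂ → ℂ) (z : E2) :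
    (shear i j hij p)⁻¹ z = z - EuclideanSpace.single i (p (z j)) := rfl

theorem shear_isAut {i j : Fin 2} (hij : i ≠ j) {p : ℂ → ℂ} (hp : ContDiff ℂ ω p) :
    IsAut (shear i j hij p) := by
  have h1 : ContDiff ℂ ω (fun z : E2 => (EuclideanSpace.single i (p (z j)) : E2)) := by
    rw [contDiff_euclidean]
    intro k
    by_cases hk : k = i
    · subst hk
      simp only [PiLp.single_apply, if_true]
      exact hp.comp (contDiff_euclidean.1 contDiff_id j)
    · simp only [PiLp.single_apply, if_neg hk]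
      exact contDiff_const
  constructor
  · exact contDiff_id.add h1
  · exact contDiff_id.sub h1

/-- Pushing a compact set far away with a shear that is almost the identity on a disc. -/
theorem shear_push {K : Set E2} (hK : IsCompact K) (i j : Fin 2) {r ρ : ℝ} (hr : 0 ≤ r)
    (hrρ : r < ρ) (hKρ : ∀ w ∈ K, ρ < ‖w j‖) {ε : ℝ} (hε : 0 < ε) (T : ℝ) :
    ∃ p : ℂ → ℂ, ContDiff ℂ ω p ∧ (∀ t, ‖t‖ ≤ r → ‖p t‖ ≤ ε) ∧
      ∀ w ∈ K, T < ‖w i + p (w j)‖ := by
  have hρ : 0 < ρ := lt_of_le_of_lt hr hrρ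
  obtain ⟨ρ0, hρ0, hKρ0⟩ : ∃ ρ0, ρ < ρ0 ∧ ∀ w ∈ K, ρ0 ≤ ‖w j‖ := by
    rcases K.eq_empty_or_nonempty with rfl | hne
    · exact ⟨ρ + 1, by linarith, by simp⟩
    · have hcont : ContinuousOn (fun w : E2 => ‖w j‖) K := by fun_prop
      obtain ⟨w0, hw0, hmin⟩ := hK.exists_isMinOn hne hcont
      exact ⟨‖w0 j‖, hKρ w0 hw0, fun w hw => hmin hw⟩
  obtain ⟨X, hX⟩ : ∃ X, ∀ w ∈ K, ‖w i‖ ≤ X := by
    have hcont : ContinuousOn (fun w : E2 => w i) K := by fun_prop
    exact hK.exists_bound_of_continuousOn hcont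
  have h1 : Tendsto (fun N : ℕ => (r / ρ) ^ N) atTop (𝓝 0) :=
    tendsto_pow_atTop_nhds_zero_of_lt_one (by positivity) ((div_lt_one hρ).2 hrρ)
  have h2 : Tendsto (fun N : ℕ => (ρ0 / ρ) ^ N) atTop atTop :=
    tendsto_pow_atTop_atTop_of_one_lt ((one_lt_div hρ).2 hρ0)
  obtain ⟨N, hN1, hN2⟩ := ((h1.eventually (gt_mem_nhds hε)).and
    (h2.eventually (eventually_gt_atTop (T + X)))).exists
  refine ⟨fun t => (t / (ρ : ℂ)) ^ N, ?_, ?_, ?_⟩
  · exact (contDiff_id.div_const _).pow N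
  · intro t ht
    simp only [norm_pow, norm_div]
    have : ‖(ρ : ℂ)‖ = ρ := by
      rw [Complex.norm_real, Real.norm_of_nonneg hρ.le]
    rw [this]
    refine le_trans ?_ hN1.le
    gcongr
  · intro w hw
    have h3 : ‖((w j) / (ρ : ℂ)) ^ N‖ = (‖w j‖ / ρ) ^ N := by
      rw [norm_pow, norm_div, Complex.norm_real, Real.norm_of_nonneg hρ.le]
    have h4 : (ρ0 / ρ) ^ N ≤ (‖w j‖ / ρ) ^ N := by
      have := hKρ0 w hw
      have : 0 ≤ ρ0 := by linarith
      gcongr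
    have h5 := hX w hw
    have h6 : ‖((w j) / (ρ : ℂ)) ^ N‖ - ‖w i‖ ≤ ‖w i + ((w j) / (ρ : ℂ)) ^ N‖ := by
      have := norm_sub_norm_le (((w j) / (ρ : ℂ)) ^ N) (-(w i))
      rw [norm_neg, sub_neg_eq_add, add_comm _ (w i)] at this
      exact this
    simp only
    linarith

/-- The radii used for the base map. -/
noncomputable def Rb (m : ℕ) : ℝ := m + 2

/-- One step of the base construction. -/
theorem base_step (m : ℕ) {D : Set E2} (hD : IsCompact D) (hDR : ∀ w ∈ D, Rb m < ‖w 1‖) {δ : ℝ}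
    (hδ : 0 < δ) : ∃ σ : Equiv.Perm E2, IsAut σ ∧ (∀ w ∈ D, Rb (m + 1) < ‖(σ⁻¹ w) 1‖) ∧
      ∀ x, ‖x‖ ≤ Rb m → ‖σ x - x‖ ≤ δ := by
  have hR : 0 ≤ Rb m := by unfold Rb; positivity
  obtain ⟨ρ, hρ, hDρ⟩ : ∃ ρ, Rb m < ρ ∧ ∀ w ∈ D, ρ < ‖w 1‖ := by
    rcases D.eq_empty_or_nonempty with rfl | hne
    · exact ⟨Rb m + 1, by linarith, by simp⟩
    · have hcont : ContinuousOn (fun w : E2 => ‖w 1‖) D := by fun_prop
      obtain ⟨w0, hw0, hmin⟩ := hD.exists_isMinOn hne hcont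
      have h0 := hDR w0 hw0
      refine ⟨(Rb m + ‖w0 1‖) / 2, by linarith, fun w hw => ?_⟩
      have : ‖w0 1‖ ≤ ‖w 1‖ := hmin hw
      linarith
  set r1 := (Rb m + ρ) / 2 with hr1
  have h01 : (0 : Fin 2) ≠ 1 := by decide
  have h10 : (1 : Fin 2) ≠ 0 := by decide
  obtain ⟨p1, hp1, hp1a, hp1b⟩ := shear_push hD 0 1 (r := r1) (ρ := ρ) (by linarith) (by linarith)
    hDρ (half_pos hδ) (Rb m + 1)
  set β1 := shear 0 1 h01 p1 with hβ1
  have hβ1a : IsAut β1 := shear_isAut h01 hp1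
  have hD1 : IsCompact (β1 '' D) := hD.image hβ1a.c.continuous
  have hD1' : ∀ w ∈ β1 '' D, Rb m + 1 < ‖w 0‖ := by
    rintro _ ⟨w, hw, rfl⟩
    have := hp1b w hw
    simpa [hβ1, shear_apply] using this
  obtain ⟨p2, hp2, hp2a, hp2b⟩ := shear_push hD1 1 0 (r := Rb m) (ρ := Rb m + 1) hR (by linarith)
    hD1' (ε := min (δ / 2) (r1 - Rb m)) (lt_min (half_pos hδ) (by linarith)) (Rb (m + 1))
  set β2 := shear 1 0 h10 p2 with hβ2
  have hβ2a : IsAut β2 := shear_isAut h10 hp2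
  refine ⟨β1⁻¹ * β2⁻¹, hβ1a.inv.mul hβ2a.inv, ?_, ?_⟩
  · intro w hw
    have h := hp2b (β1 w) (mem_image_of_mem _ hw)
    have e : ((β1⁻¹ * β2⁻¹)⁻¹ : Equiv.Perm E2) w = β2 (β1 w) := by
      rw [mul_inv_rev, inv_inv, inv_inv]
      rfl
    rw [e, hβ2, shear_apply]
    simpa using h
  · intro x hx
    have hx0 : ‖x 0‖ ≤ Rb m := (PiLp.norm_apply_le x 0).trans hx
    have hx1 : ‖x 1‖ ≤ Rb m := (PiLp.norm_apply_le x 1).trans hx
    have h2 := hp2a (x 0) hx0
    set y := β2⁻¹ x with hy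
    have hyx : y - x = -EuclideanSpace.single 1 (p2 (x 0)) := by
      rw [hy, hβ2, shear_inv_apply]
      abel
    have hyn : ‖y - x‖ ≤ min (δ / 2) (r1 - Rb m) := by
      rw [hyx, norm_neg, PiLp.norm_single]
      exact h2
    have hy1 : ‖y 1‖ ≤ r1 := by
      have h3 : ‖(y - x) 1‖ ≤ ‖y - x‖ := PiLp.norm_apply_le _ _
      have h4 : y 1 = x 1 + (y - x) 1 := by simp
      rw [h4]
      have := hyn.trans (min_le_right _ _)
      exact (norm_add_le _ _).trans (by linarith)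
    have h5 := hp1a (y 1) hy1
    have h6 : (β1⁻¹ * β2⁻¹) x - x = -EuclideanSpace.single 0 (p1 (y 1)) + (y - x) := by
      have : (β1⁻¹ * β2⁻¹) x = β1⁻¹ y := rfl
      rw [this, hβ1, shear_inv_apply]
      abel
    rw [h6]
    refine (norm_add_le _ _).trans ?_
    rw [norm_neg, PiLp.norm_single]
    have := hyn.trans (min_le_left _ _)
    linarith

/-- **Base map**: there is a nice map `ℂ² → ℂ²` whose range is not dense. -/
theorem exists_nice_not_dense : ∃ g : E2 → E2, Nice g ∧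
    ∃ U : Set E2, IsOpen U ∧ U.Nonempty ∧ Disjoint U (range g) := by
  set c : E2 := EuclideanSpace.single 1 4 with hc
  let Q : ℕ → Equiv.Perm E2 → Prop := fun m τ => ∀ z ∈ closedBall c 1, Rb m < ‖(τ⁻¹ z) 1‖
  have hiter : ∀ (n k : ℕ) (x : E2), iter (fun _ => (id : E2 → E2)) n k x = x := by
    intro n k x
    induction k with
    | zero => rfl
    | succ k ih => exact ih
  have hc1 : c 1 = 4 := by simp [hc]
  obtain ⟨τ, g, hτ, hg, hgf, hclose⟩ := limit_theorem limClosed_two (fun _ => (id : E2 → E2))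
    (fun _ => Nice.id) Rb
    (by
      intro n k x hx
      rw [hiter]
      unfold Rb
      linarith)
    (by
      intro m x hx
      unfold Rb at *
      push_cast
      simp only [id]
      linarith)
    Q
    (by
      refine ⟨1, IsAut.one, ?_⟩
      intro z hz
      rw [mem_closedBall, dist_eq_norm] at hz
      have h1 : ‖(z - c) 1‖ ≤ 1 := (PiLp.norm_apply_le _ _).trans hz
      have h2 : ((1 : Equiv.Perm E2)⁻¹ z) = z := rfl
      rw [h2]
      have h3 : z 1 = 4 + (z - c) 1 := by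
        simp [hc1]
      have h4 : ‖(4 : ℂ)‖ - ‖(z - c) 1‖ ≤ ‖z 1‖ := by
        rw [h3]
        have := norm_sub_norm_le (4 : ℂ) (-((z - c) 1))
        rw [norm_neg, sub_neg_eq_add] at this
        exact this
      have h5 : ‖(4 : ℂ)‖ = 4 := by simp
      unfold Rb
      push_cast
      linarith)
    (by
      intro m τ hτ hQ δ hδ
      have hD : IsCompact ((τ⁻¹ : Equiv.Perm E2) '' closedBall c 1) :=
        (isCompact_closedBall c 1).image hτ.cs.continuous
      obtain ⟨σ, hσ, h1, h2⟩ := base_step m hD (by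
        rintro _ ⟨z, hz, rfl⟩
        exact hQ z hz) hδ
      refine ⟨σ, hσ, ?_, h2⟩
      intro z hz
      have : ((τ * σ)⁻¹ : Equiv.Perm E2) z = σ⁻¹ (τ⁻¹ z) := by
        rw [mul_inv_rev]
        rfl
      rw [this]
      exact h1 _ (mem_image_of_mem _ hz))
  refine ⟨g 0, hg 0, ball c 1, isOpen_ball, ⟨c, mem_ball_self one_pos⟩, ?_⟩
  rw [Set.disjoint_left]
  rintro z hz ⟨x, rfl⟩
  have hg0 : ∀ m, g m x = g 0 x := by
    intro m
    induction m with
    | zero => rfl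
    | succ m ih => rw [← ih]; exact hgf m x
  obtain ⟨m, hm⟩ := exists_nat_ge ‖x‖
  have h1 := hclose m x (by unfold Rb; linarith)
  rw [hg0] at h1
  have h2 := (hτ m).2 (g 0 x) (ball_subset_closedBall hz)
  set w := (τ m)⁻¹ (g 0 x) with hw
  have h3 : ‖w 1‖ ≤ ‖w‖ := PiLp.norm_apply_le _ _
  have h4 : ‖w‖ ≤ ‖w - x‖ + ‖x‖ := by
    have := norm_add_le (w - x) x
    simpa using this
  unfold Rb at h2
  linarith

theorem exists_radii {E : Type*} [NormedAddCommGroup E] [NormedSpace ℂ E] [ProperSpace E]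
    (f : ℕ → E → E) (hf : ∀ n, Nice (f n)) : ∃ R : ℕ → ℝ,
    (∀ (n k : ℕ) (x : E), ‖x‖ ≤ (n + k : ℕ) → ‖iter f n k x‖ ≤ R (n + k) - 1) ∧
    (∀ (m : ℕ) (x : E), ‖x‖ ≤ R m → ‖f m x‖ ≤ R (m + 1)) := by
  let P : ℕ → ℝ → Prop := fun m R => ∀ n ∈ Finset.range (m + 1), ∀ x : E, ‖x‖ ≤ m →
    ‖iter f n (m - n) x‖ ≤ R - 1
  have hP : ∀ m, ∀ᶠ R in atTop, P m R := by
    intro m
    refine (Filter.eventually_all_finset _).2 fun n _ => ?_
    obtain ⟨B, hB⟩ := bound (iter_nice hf n (m - n)).smooth.continuous m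
    filter_upwards [eventually_ge_atTop (B + 1)] with R hR x hx
    have := hB x hx
    linarith
  obtain ⟨R0, hR0⟩ := (hP 0).exists
  obtain ⟨R, h1, h2⟩ := dep_choice P (fun m R R' => ∀ x : E, ‖x‖ ≤ R → ‖f m x‖ ≤ R') R0 hR0 (by
    intro m R _
    obtain ⟨B, hB⟩ := bound (hf m).smooth.continuous R
    obtain ⟨R', hR', hB'⟩ := ((hP (m + 1)).and (eventually_ge_atTop B)).exists
    exact ⟨R', hR', fun x hx => (hB x hx).trans hB'⟩)
  refine ⟨R, ?_, h2⟩
  intro n k x hx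
  have := h1 (n + k) n (Finset.mem_range.2 (by omega)) x hx
  rwa [Nat.add_sub_cancel_left] at this

/-- **Limit step**: a sequence of nice maps can be capped by nice maps, all of whose ranges miss a
common nonempty open set. -/
theorem cap_step (f : ℕ → E2 → E2) (hf : ∀ n, Nice (f n)) : ∃ g : ℕ → E2 → E2,
    (∀ n, Nice (g n)) ∧ (∀ n x, g (n + 1) (f n x) = g n x) ∧
    ∃ U : Set E2, IsOpen U ∧ U.Nonempty ∧ ∀ n, Disjoint U (range (g n)) := by
  obtain ⟨R, hR1, hR2⟩ := exists_radii f hf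
  obtain ⟨τ, g, -, hg, hgf, -⟩ := limit_theorem limClosed_two f hf R hR1 hR2 (fun _ _ => True)
    ⟨1, IsAut.one, trivial⟩ (by
      intro m τ _ _ δ hδ
      obtain ⟨σ, hσ, h⟩ := (hf m).app (R m) δ hδ
      exact ⟨σ, hσ, trivial, h⟩)
  obtain ⟨b, hb, U, hU, hUne, hUb⟩ := exists_nice_not_dense
  refine ⟨fun n => b ∘ g n, fun n => hb.comp (hg n), fun n x => ?_, U, hU, hUne, fun n => ?_⟩
  · simp only [Function.comp, hgf]
  · exact hUb.mono_right (range_comp_subset_range _ _)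

end Pool.Agent.Lib_helper93
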