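import Pool.Agent.Lib_helper93.System

open Complex Set Metric Filter
open scoped Real Topology ContDiff Manifold

namespace Pool.Agent.Lib_helper93

theorem Nice.isOpenMap {f : E2 → E2} (hf : Nice f) : IsOpenMap f := by
  choose L hL using hf.der
  refine isOpenMap_of_hasStrictFDerivAt_equiv (f' := L) (𝕜 := ℂ) fun x => ?_
  exact hf.smooth.contDiffAt.hasStrictFDerivAt' (hL x) (by simp)

theorem Nice.isOpenEmbedding {f : E2 → E2} (hf : Nice f) : Topology.IsOpenEmbedding f :=
  .of_continuous_injective_isOpenMap hf.smooth.continuous hf.inj hf.isOpenMap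

theorem Nice.symm_contDiffAt {f : E2 → E2} (hf : Nice f) (x : E2) :
    ContDiffAt ℂ ω (hf.isOpenEmbedding.toOpenPartialHomeomorph f).symm (f x) := by
  set e := hf.isOpenEmbedding.toOpenPartialHomeomorph f with he
  have h1 : e.symm (f x) = x := e.left_inv (by simp [he])
  obtain ⟨L, hL⟩ := hf.der x
  refine e.contDiffAt_symm (f₀' := L) (by simp [he]) ?_ ?_
  · rw [h1]; exact hL
  · rw [h1]; exact hf.smooth.contDiffAt

/-- A direct system of nice maps. -/
structure Sys (W : Type) [LinearOrder W] where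
  φ : W → W → E2 → E2
  self : ∀ α, φ α α = id
  nice : ∀ α β, α ≤ β → Nice (φ α β)
  comp : ∀ α β γ, α ≤ β → β ≤ γ → ∀ x, φ β γ (φ α β x) = φ α γ x

namespace Sys

variable {W : Type} [LinearOrder W] (S : Sys W)

/-- The identification defining the direct limit. -/
def setoid : Setoid (W × E2) where
  r p q := ∃ γ, p.1 ≤ γ ∧ q.1 ≤ γ ∧ S.φ p.1 γ p.2 = S.φ q.1 γ q.2
  iseqv := by
    refine ⟨fun p => ⟨p.1, le_rfl, le_rfl, rfl⟩, ?_, ?_⟩
    · rintro p q ⟨γ, h1, h2, h⟩
      exact ⟨γ, h2, h1, h.symm⟩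
    · rintro p q r ⟨γ, h1, h2, h⟩ ⟨δ, h3, h4, h'⟩
      refine ⟨max γ δ, h1.trans (le_max_left _ _), h4.trans (le_max_right _ _), ?_⟩
      rw [← S.comp p.1 γ _ h1 (le_max_left _ _), h, S.comp q.1 γ _ h2 (le_max_left _ _),
        ← S.comp q.1 δ _ h3 (le_max_right _ _), h', S.comp r.1 δ _ h4 (le_max_right _ _)]

/-- The direct limit. -/
def M : Type := Quotient S.setoid

/-- The canonical maps to the direct limit. -/
def ι (α : W) (x : E2) : S.M := Quotient.mk S.setoid (α, x)

theorem ι_eq_iff {α β : W} {x y : E2} : S.ι α x = S.ι β y ↔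
    ∃ γ, α ≤ γ ∧ β ≤ γ ∧ S.φ α γ x = S.φ β γ y := Quotient.eq (r := S.setoid)

theorem ι_eq_iff' {α β γ : W} (hα : α ≤ γ) (hβ : β ≤ γ) {x y : E2} : S.ι α x = S.ι β y ↔
    S.φ α γ x = S.φ β γ y := by
  rw [ι_eq_iff]
  constructor
  · rintro ⟨δ, h1, h2, h⟩
    apply (S.nice γ (max γ δ) (le_max_left _ _)).inj
    rw [S.comp α γ _ hα (le_max_left _ _), S.comp β γ _ hβ (le_max_left _ _),
      ← S.comp α δ _ h1 (le_max_right _ _), h, S.comp β δ _ h2 (le_max_right _ _)]
  · intro h
    exact ⟨γ, hα, hβ, h⟩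

theorem ι_inj (α : W) : Function.Injective (S.ι α) := by
  intro x y h
  rw [S.ι_eq_iff' le_rfl le_rfl, S.self] at h
  exact h

theorem ι_map {α β : W} (h : α ≤ β) (x : E2) : S.ι β (S.φ α β x) = S.ι α x := by
  rw [S.ι_eq_iff' le_rfl h, S.self]
  rfl

theorem exists_rep (m : S.M) : ∃ α x, m = S.ι α x := by
  obtain ⟨⟨α, x⟩, rfl⟩ := Quotient.exists_rep m
  exact ⟨α, x, rfl⟩

theorem exists_rep₂ (m m' : S.M) : ∃ α x y, m = S.ι α x ∧ m' = S.ι α y := by
  obtain ⟨α, x, rfl⟩ := S.exists_rep m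
  obtain ⟨β, y, rfl⟩ := S.exists_rep m'
  exact ⟨max α β, S.φ α (max α β) x, S.φ β (max α β) y, (S.ι_map (le_max_left _ _) x).symm,
    (S.ι_map (le_max_right _ _) y).symm⟩

noncomputable instance : TopologicalSpace S.M := ⨆ α, TopologicalSpace.coinduced (S.ι α) inferInstance

theorem isOpen_iff {U : Set S.M} : IsOpen U ↔ ∀ α, IsOpen (S.ι α ⁻¹' U) := by
  rw [isOpen_iSup_iff]
  simp only [isOpen_coinduced]

theorem ι_continuous (α : W) : Continuous (S.ι α) :=
  continuous_def.2 fun _ hU => S.isOpen_iff.1 hU α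

theorem ι_isOpenMap (α : W) : IsOpenMap (S.ι α) := by
  intro V hV
  rw [isOpen_iff]
  intro β
  have hα := le_max_left α β
  have hβ := le_max_right α β
  have : S.ι β ⁻¹' (S.ι α '' V) = S.φ β (max α β) ⁻¹' (S.φ α (max α β) '' V) := by
    ext y
    simp only [mem_preimage, mem_image]
    constructor
    · rintro ⟨x, hx, h⟩
      exact ⟨x, hx, (S.ι_eq_iff' hα hβ).1 h⟩
    · rintro ⟨x, hx, h⟩
      exact ⟨x, hx, (S.ι_eq_iff' hα hβ).2 h⟩
  rw [this]
  exact ((S.nice _ _ hα).isOpenMap _ hV).preimage (S.nice _ _ hβ).smooth.continuous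

theorem ι_isOpenEmbedding (α : W) : Topology.IsOpenEmbedding (S.ι α) :=
  .of_continuous_injective_isOpenMap (S.ι_continuous α) (S.ι_inj α) (S.ι_isOpenMap α)

/-- The chart given by the inverse of `ι α`. -/
noncomputable def chartOf (α : W) : OpenPartialHomeomorph S.M E2 :=
  ((S.ι_isOpenEmbedding α).toOpenPartialHomeomorph (S.ι α)).symm

theorem chartOf_source (α : W) : (S.chartOf α).source = range (S.ι α) := by
  simp [chartOf]

theorem chartOf_symm (α : W) (x : E2) : (S.chartOf α).symm x = S.ι α x := by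
  simp [chartOf]

theorem ι_chartOf {α : W} {m : S.M} (hm : m ∈ range (S.ι α)) : S.ι α (S.chartOf α m) = m := by
  have h := (S.chartOf α).left_inv (x := m) (by rwa [chartOf_source])
  rwa [chartOf_symm] at h

/-- A stage containing a given point. -/
noncomputable def stage (m : S.M) : W := (S.exists_rep m).choose

theorem mem_stage (m : S.M) : m ∈ range (S.ι (S.stage m)) := by
  obtain ⟨x, hx⟩ := (S.exists_rep m).choose_spec
  exact ⟨x, hx.symm⟩

noncomputable instance : ChartedSpace E2 S.M where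
  atlas := range S.chartOf
  chartAt m := S.chartOf (S.stage m)
  mem_chart_source m := by
    rw [chartOf_source]
    exact S.mem_stage m
  chart_mem_atlas m := ⟨_, rfl⟩

theorem isManifold : IsManifold (modelWithCornersSelf ℂ E2) (⊤ : WithTop ℕ∞) S.M := by
  refine isManifold_of_contDiffOn _ _ _ ?_
  rintro _ _ ⟨α, rfl⟩ ⟨β, rfl⟩
  have hα := le_max_left α β
  have hβ := le_max_right α β
  set γ := max α β
  intro x hx
  have hx' : S.ι α x ∈ range (S.ι β) := by
    have := hx.1
    simp only [mem_preimage, modelWithCornersSelf_coe_symm, id, OpenPartialHomeomorph.trans_source,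
      mem_inter_iff, chartOf_source, chartOf_symm] at this
    exact this.2
  have key : ∀ z : E2, S.ι α z ∈ range (S.ι β) →
      S.φ β γ (S.chartOf β (S.ι α z)) = S.φ α γ z := by
    intro z hz
    rw [← S.ι_eq_iff' hβ hα]
    exact S.ι_chartOf hz
  set e := (S.nice β γ hβ).isOpenEmbedding.toOpenPartialHomeomorph (S.φ β γ) with he
  have key2 : ∀ z : E2, S.ι α z ∈ range (S.ι β) →
      S.chartOf β (S.ι α z) = e.symm (S.φ α γ z) := by
    intro z hz
    rw [← key z hz]
    exact (e.left_inv (by simp [he])).symm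
  have hcd : ContDiffAt ℂ ω (fun z => e.symm (S.φ α γ z)) x := by
    have h1 : ContDiffAt ℂ ω e.symm (S.φ α γ x) := by
      rw [← key x hx']
      exact (S.nice β γ hβ).symm_contDiffAt _
    exact h1.comp x (S.nice α γ hα).smooth.contDiffAt
  refine hcd.contDiffWithinAt.congr ?_ ?_
  · intro z hz
    have hz' : S.ι α z ∈ range (S.ι β) := by
      have := hz.1
      simp only [mem_preimage, modelWithCornersSelf_coe_symm, id,
        OpenPartialHomeomorph.trans_source, mem_inter_iff, chartOf_source, chartOf_symm] at this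
      exact this.2
    simp only [modelWithCornersSelf_coe, modelWithCornersSelf_coe_symm, Function.comp, id,
      OpenPartialHomeomorph.coe_trans, chartOf_symm]
    exact key2 z hz'
  · simp only [modelWithCornersSelf_coe, modelWithCornersSelf_coe_symm, Function.comp, id,
      OpenPartialHomeomorph.coe_trans, chartOf_symm]
    exact key2 x hx'

theorem t2 : T2Space S.M := by
  refine ⟨fun m m' hne => ?_⟩
  obtain ⟨α, x, y, rfl, rfl⟩ := S.exists_rep₂ m m'
  have hxy : x ≠ y := fun h => hne (by rw [h])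
  obtain ⟨U, V, hU, hV, hxU, hyV, hd⟩ := t2_separation hxy
  exact ⟨S.ι α '' U, S.ι α '' V, S.ι_isOpenMap α U hU, S.ι_isOpenMap α V hV,
    mem_image_of_mem _ hxU, mem_image_of_mem _ hyV, (disjoint_image_iff (S.ι_inj α)).2 hd⟩

theorem connected [Nonempty W] : ConnectedSpace S.M := by
  have h1 : IsPreconnected (univ : Set S.M) := by
    refine isPreconnected_of_forall_pair ?_
    intro m _ m' _
    obtain ⟨α, x, y, rfl, rfl⟩ := S.exists_rep₂ m m'
    exact ⟨range (S.ι α), subset_univ _, mem_range_self _, mem_range_self _,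
      isPreconnected_range (S.ι_continuous α)⟩
  have h2 : PreconnectedSpace S.M := ⟨h1⟩
  exact { toPreconnectedSpace := h2, toNonempty := ⟨S.ι (Classical.arbitrary W) 0⟩ }

theorem not_separable (hW : ∀ s : Set W, s.Countable → ∃ β, ∀ α ∈ s, α < β)
    (hS : ∀ β, ∃ U : Set E2, IsOpen U ∧ U.Nonempty ∧ ∀ α, α < β → Disjoint U (range (S.φ α β))) :
    ¬ TopologicalSpace.SeparableSpace S.M := by
  intro hsep
  obtain ⟨s, hs, hsd⟩ := TopologicalSpace.exists_countable_dense S.M
  obtain ⟨β, hβ⟩ := hW (S.stage '' s) (hs.image _)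
  obtain ⟨U, hU, ⟨u, hu⟩, hd⟩ := hS β
  obtain ⟨m, hmU, hms⟩ := hsd.inter_open_nonempty (S.ι β '' U) (S.ι_isOpenMap β U hU)
    ⟨_, mem_image_of_mem _ hu⟩
  obtain ⟨v, hv, rfl⟩ := hmU
  have hlt := hβ _ (mem_image_of_mem _ hms)
  obtain ⟨x, hx⟩ := S.mem_stage (S.ι β v)
  rw [← S.ι_map hlt.le] at hx
  have hxv := S.ι_inj β hx
  exact (Set.disjoint_left.1 (hd _ hlt)) hv ⟨x, hxv⟩

end Sys

end Pool.Agent.Lib_helper93
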