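import Pool.Agent.Lib_helper93.Nice

open Complex Set Metric Filter
open scoped Real Topology ContDiff

set_option linter.unusedSectionVars false

namespace Pool.Agent.Lib_helper93

variable {E : Type*} [NormedAddCommGroup E] [NormedSpace ℂ E]

theorem perm_apply_inv {α : Type*} (σ : Equiv.Perm α) (x : α) : σ (σ⁻¹ x) = x :=
  σ.apply_symm_apply x

theorem perm_inv_apply {α : Type*} (σ : Equiv.Perm α) (x : α) : σ⁻¹ (σ x) = x :=
  σ.symm_apply_apply x

/-- A map close to the identity on `closedBall 0 R` is injective on `closedBall 0 (R-1)`. -/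
theorem near_id_inj {h : E → E} (hh : Differentiable ℂ h) {R : ℝ}
    (hc : ∀ x, ‖x‖ ≤ R → ‖h x - x‖ ≤ 1 / 4) {x y : E} (hx : ‖x‖ ≤ R - 1) (hy : ‖y‖ ≤ R - 1)
    (hxy : h x = h y) : x = y := by
  have hd : Differentiable ℂ (fun x => h x - x) := hh.sub differentiable_id
  have hle : ∀ z, ‖z‖ ≤ R - 1 → ‖fderiv ℂ (fun x => h x - x) z‖ ≤ 1 / 4 := fun z hz =>
    cauchy_est hd hc hz
  have hconv : Convex ℝ (closedBall (0 : E) (R - 1)) := convex_closedBall _ _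
  have := hconv.norm_image_sub_le_of_norm_fderiv_le (𝕜 := ℂ) (f := fun x => h x - x) (C := 1 / 4)
    (x := x) (y := y)
    (fun z _ => hd.differentiableAt) (fun z hz => hle z (by rwa [mem_closedBall_zero_iff] at hz))
    (by rwa [mem_closedBall_zero_iff]) (by rwa [mem_closedBall_zero_iff])
  have h2 : (h y - y) - (h x - x) = -(y - x) := by
    rw [hxy]; abel
  simp only [h2, norm_neg] at this
  have h3 : ‖y - x‖ = 0 := by
    have := norm_nonneg (y - x)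
    linarith
  exact (sub_eq_zero.1 (norm_eq_zero.1 h3)).symm

theorem near_id_der [CompleteSpace E] {h : E → E} (hh : Differentiable ℂ h) {R : ℝ}
    (hc : ∀ x, ‖x‖ ≤ R → ‖h x - x‖ ≤ 1 / 4) {x : E} (hx : ‖x‖ ≤ R - 1) :
    ∃ L : E ≃L[ℂ] E, HasFDerivAt h (L : E →L[ℂ] E) x := by
  have hd : Differentiable ℂ (fun x => h x - x) := hh.sub differentiable_id
  have hle : ‖fderiv ℂ (fun x => h x - x) x‖ ≤ 1 / 4 := cauchy_est hd hc hx
  have hder : fderiv ℂ (fun x => h x - x) x = fderiv ℂ h x - ContinuousLinearMap.id ℂ E := by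
    rw [fderiv_fun_sub hh.differentiableAt differentiableAt_fun_id]
    simp
  have hsum : fderiv ℂ h x = 1 - (-(fderiv ℂ (fun x => h x - x) x)) := by
    rw [hder]
    ext v
    simp
  have hunit : IsUnit (fderiv ℂ h x) := by
    rw [hsum]
    refine isUnit_one_sub_of_norm_lt_one ?_
    rw [norm_neg]
    linarith
  obtain ⟨u, hu⟩ := hunit
  refine ⟨ContinuousLinearEquiv.unitsEquiv ℂ E u, ?_⟩
  have : ((ContinuousLinearEquiv.unitsEquiv ℂ E u : E ≃L[ℂ] E) : E →L[ℂ] E) = fderiv ℂ h x := by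
    rw [← hu]
    ext v
    simp
  rw [this]
  exact hh.differentiableAt.hasFDerivAt

/-- The limit theorem. -/
theorem limit_theorem [CompleteSpace E] [ProperSpace E] (hE : LimClosed E)
    (f : ℕ → E → E) (hf : ∀ n, Nice (f n)) (R : ℕ → ℝ)
    (hR1 : ∀ (n k : ℕ) (x : E), ‖x‖ ≤ (n + k : ℕ) → ‖iter f n k x‖ ≤ R (n + k) - 1)
    (hR2 : ∀ (m : ℕ) (x : E), ‖x‖ ≤ R m → ‖f m x‖ ≤ R (m + 1))
    (Q : ℕ → Equiv.Perm E → Prop) (hQ0 : ∃ τ, IsAut τ ∧ Q 0 τ)
    (hQ : ∀ m τ, IsAut τ → Q m τ → ∀ δ : ℝ, 0 < δ →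
      ∃ σ, IsAut σ ∧ Q (m + 1) (τ * σ) ∧ ∀ x, ‖x‖ ≤ R m → ‖σ (f m x) - x‖ ≤ δ) :
    ∃ (τ : ℕ → Equiv.Perm E) (g : ℕ → E → E), (∀ m, IsAut (τ m) ∧ Q m (τ m)) ∧
      (∀ n, Nice (g n)) ∧ (∀ n x, g (n + 1) (f n x) = g n x) ∧
      (∀ m x, ‖x‖ ≤ R m → ‖(τ m)⁻¹ (g m x) - x‖ ≤ 1 / 4) := by
  classical
  -- the invariant
  let Inv : ℕ → (Equiv.Perm E × ℝ) → Prop := fun m s =>
    IsAut s.1 ∧ Q m s.1 ∧ 0 < s.2 ∧ s.2 ≤ 1 / 4 ∧
    (∀ y e : E, ‖y‖ ≤ R m → ‖e‖ ≤ s.2 → ‖s.1 (y + e) - s.1 y‖ ≤ (1 / 2) ^ m) ∧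
    (∀ n ∈ Finset.range (m + 1), ∃ ρ : Equiv.Perm E, IsAut ρ ∧
      (∀ x : E, ‖x‖ ≤ m → ‖ρ (iter f n (m - n) x) - x‖ ≤ (1 / 2) ^ m) ∧
      (∀ y e : E, ‖y‖ ≤ R m → ‖e‖ ≤ s.2 → ‖ρ (y + e) - ρ y‖ ≤ (1 / 2) ^ m))
  let Rel : ℕ → (Equiv.Perm E × ℝ) → (Equiv.Perm E × ℝ) → Prop := fun m s s' =>
    (∀ x, ‖x‖ ≤ R m → ‖(s.1⁻¹ * s'.1) (f m x) - x‖ ≤ s.2 / 2) ∧
    (∀ y e : E, ‖y‖ ≤ R (m + 1) → ‖e‖ ≤ s'.2 →
      ‖(s.1⁻¹ * s'.1) (y + e) - (s.1⁻¹ * s'.1) y‖ ≤ s.2 / 2)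
  -- existence of small delta for a given automorphism
  have hInv : ∀ m τ, IsAut τ → Q m τ → ∀ᶠ δ in 𝓝[>] (0 : ℝ), Inv m (τ, δ) := by
    intro m τ hτ hQτ
    have h1 : ∀ᶠ δ in 𝓝[>] (0 : ℝ), (0 : ℝ) < δ := self_mem_nhdsWithin
    have h2 : ∀ᶠ δ in 𝓝[>] (0 : ℝ), δ ≤ 1 / 4 := by
      have : Ioc (0 : ℝ) (1 / 4) ∈ 𝓝[>] (0 : ℝ) := Ioc_mem_nhdsGT (by norm_num)
      filter_upwards [this] with t ht using ht.2
    have h3 := unif hτ.c.continuous (R m) (ε := (1 / 2) ^ m) (by positivity)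
    have h4 : ∀ n ∈ Finset.range (m + 1), ∀ᶠ δ in 𝓝[>] (0 : ℝ), ∃ ρ : Equiv.Perm E, IsAut ρ ∧
        (∀ x : E, ‖x‖ ≤ m → ‖ρ (iter f n (m - n) x) - x‖ ≤ (1 / 2) ^ m) ∧
        (∀ y e : E, ‖y‖ ≤ R m → ‖e‖ ≤ δ → ‖ρ (y + e) - ρ y‖ ≤ (1 / 2) ^ m) := by
      intro n _
      obtain ⟨ρ, hρ, hρ1⟩ := (iter_nice hf n (m - n)).app m ((1 / 2) ^ m) (by positivity)
      have h5 := unif hρ.c.continuous (R m) (ε := (1 / 2) ^ m) (by positivity)
      filter_upwards [h5] with δ hδ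
      exact ⟨ρ, hρ, hρ1, hδ⟩
    have h4' := (Filter.eventually_all_finset (Finset.range (m + 1))).2 h4
    filter_upwards [h1, h2, h3, h4'] with δ a1 a2 a3 a4
    exact ⟨hτ, hQτ, a1, a2, a3, a4⟩
  obtain ⟨τ0, hτ0, hQτ0⟩ := hQ0
  obtain ⟨δ0, hδ0⟩ := (hInv 0 τ0 hτ0 hQτ0).exists
  have hstep : ∀ m s, Inv m s → ∃ s', Inv (m + 1) s' ∧ Rel m s s' := by
    rintro m ⟨τ, δ⟩ ⟨hτ, hQτ, hδ, -, -, -⟩
    obtain ⟨σ, hσ, hσQ, hσf⟩ := hQ m τ hτ hQτ (δ / 2) (half_pos hδ)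
    have e : τ⁻¹ * (τ * σ) = σ := by group
    have h1 := hInv (m + 1) (τ * σ) (hτ.mul hσ) hσQ
    have h2 := unif hσ.c.continuous (R (m + 1)) (ε := δ / 2) (half_pos hδ)
    obtain ⟨δ', h1', h2'⟩ := (h1.and h2).exists
    refine ⟨(τ * σ, δ'), h1', ?_, ?_⟩
    · simpa only [e] using hσf
    · simpa only [e] using h2'
  obtain ⟨u, huInv, huRel⟩ := dep_choice Inv Rel (τ0, δ0) hδ0 hstep
  set τ : ℕ → Equiv.Perm E := fun m => (u m).1 with hτdef
  set δ : ℕ → ℝ := fun m => (u m).2 with hδdef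
  have hτaut : ∀ m, IsAut (τ m) := fun m => (huInv m).1
  have hτQ : ∀ m, Q m (τ m) := fun m => (huInv m).2.1
  have hδpos : ∀ m, 0 < δ m := fun m => (huInv m).2.2.1
  have hδle : ∀ m, δ m ≤ 1 / 4 := fun m => (huInv m).2.2.2.1
  have hτu : ∀ m (y e : E), ‖y‖ ≤ R m → ‖e‖ ≤ δ m → ‖τ m (y + e) - τ m y‖ ≤ (1 / 2) ^ m :=
    fun m => (huInv m).2.2.2.2.1
  have hρ : ∀ m, ∀ n ∈ Finset.range (m + 1), ∃ ρ : Equiv.Perm E, IsAut ρ ∧
      (∀ x : E, ‖x‖ ≤ m → ‖ρ (iter f n (m - n) x) - x‖ ≤ (1 / 2) ^ m) ∧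
      (∀ y e : E, ‖y‖ ≤ R m → ‖e‖ ≤ δ m → ‖ρ (y + e) - ρ y‖ ≤ (1 / 2) ^ m) :=
    fun m => (huInv m).2.2.2.2.2
  have hrel1 : ∀ m x, ‖x‖ ≤ R m → ‖((τ m)⁻¹ * τ (m + 1)) (f m x) - x‖ ≤ δ m / 2 :=
    fun m => (huRel m).1
  have hrel2 : ∀ m (y e : E), ‖y‖ ≤ R (m + 1) → ‖e‖ ≤ δ (m + 1) →
      ‖((τ m)⁻¹ * τ (m + 1)) (y + e) - ((τ m)⁻¹ * τ (m + 1)) y‖ ≤ δ m / 2 :=
    fun m => (huRel m).2
  -- H maps are close to the identity
  have hH : ∀ (k m : ℕ) (x : E), ‖x‖ ≤ R m →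
      ‖(τ m)⁻¹ (τ (m + k) (iter f m k x)) - x‖ ≤ δ m := by
    intro k
    induction k with
    | zero =>
      intro m x _
      have : (τ m)⁻¹ (τ (m + 0) (iter f m 0 x)) = x := by
        simp [iter]
      rw [this]
      simp [(hδpos m).le]
    | succ k ih =>
      intro m x hx
      have hy := hR2 m x hx
      have hy' := ih (m + 1) (f m x) hy
      set y := f m x with hydef
      set w := (τ (m + 1))⁻¹ (τ (m + 1 + k) (iter f (m + 1) k y)) with hw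
      have e1 : (τ m)⁻¹ (τ (m + (k + 1)) (iter f m (k + 1) x)) = ((τ m)⁻¹ * τ (m + 1)) w := by
        rw [iter_succ', hw, show m + (k + 1) = m + 1 + k by ring]
        simp [Equiv.Perm.mul_apply, hydef]
      have h5 := hrel2 m y (w - y) hy hy'
      rw [add_sub_cancel] at h5
      have h6 := hrel1 m x hx
      rw [e1]
      have : ((τ m)⁻¹ * τ (m + 1)) w - x = (((τ m)⁻¹ * τ (m + 1)) w - ((τ m)⁻¹ * τ (m + 1)) y) +
          (((τ m)⁻¹ * τ (m + 1)) y - x) := by abel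
      rw [this]
      exact (norm_add_le _ _).trans (by linarith)
  -- convergence
  have hRbig : ∀ (n k : ℕ) (x : E), ‖x‖ ≤ (n + k : ℕ) → ‖iter f n k x‖ ≤ R (n + k) := by
    intro n k x hx
    have := hR1 n k x hx
    linarith
  have hG : ∀ (n k : ℕ) (x : E), ‖x‖ ≤ (n + k : ℕ) →
      ‖τ (n + (k + 1)) (iter f n (k + 1) x) - τ (n + k) (iter f n k x)‖ ≤ (1 / 2) ^ (n + k) := by
    intro n k x hx
    set m := n + k with hm
    set y := iter f n k x with hy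
    have hyR : ‖y‖ ≤ R m := hRbig n k x hx
    have h1 := hrel1 m y hyR
    set w := ((τ m)⁻¹ * τ (m + 1)) (f m y) with hw
    have h1' : ‖w - y‖ ≤ δ m := by
      have := hδpos m
      linarith
    have h2 := hτu m y (w - y) hyR h1'
    rw [add_sub_cancel] at h2
    have e : τ (n + (k + 1)) (iter f n (k + 1) x) = τ m w := by
      rw [hw]
      simp only [Equiv.Perm.mul_apply, perm_apply_inv]
      rfl
    rw [e]
    exact h2
  -- uniform estimate
  have hgeo : ∀ (n N : ℕ) (x : E), ‖x‖ ≤ N → ∀ k, dist (τ (n + (N + k)) (iter f n (N + k) x))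
      (τ (n + (N + (k + 1))) (iter f n (N + (k + 1)) x)) ≤ 1 * (1 / 2) ^ k := by
    intro n N x hx k
    rw [dist_comm, dist_eq_norm]
    have hNk : (N : ℝ) ≤ ((n + (N + k) : ℕ) : ℝ) := by exact_mod_cast (by omega)
    have := hG n (N + k) x (hx.trans hNk)
    refine this.trans ?_
    rw [one_mul]
    exact pow_le_pow_of_le_one (by norm_num) (by norm_num) (by omega)
  have hlim : ∀ (n : ℕ) (x : E), ∃ l : E, Tendsto (fun k => τ (n + k) (iter f n k x)) atTop (𝓝 l) := by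
    intro n x
    obtain ⟨N, hN⟩ := exists_nat_ge ‖x‖
    have hc : CauchySeq (fun k => τ (n + (N + k)) (iter f n (N + k) x)) :=
      cauchySeq_of_le_geometric (1 / 2) 1 (by norm_num) (hgeo n N x hN)
    obtain ⟨l, hl⟩ := cauchySeq_tendsto_of_complete hc
    refine ⟨l, ?_⟩
    have h2 : Tendsto (fun k => τ (n + (k + N)) (iter f n (k + N) x)) atTop (𝓝 l) := by
      have : (fun k => τ (n + (k + N)) (iter f n (k + N) x)) =
          (fun k => τ (n + (N + k)) (iter f n (N + k) x)) := by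
        funext k
        rw [add_comm k N]
      rw [this]
      exact hl
    exact (tendsto_add_atTop_iff_nat (f := fun k => τ (n + k) (iter f n k x)) N).1 h2
  choose g hg using hlim
  have hgunif : ∀ (n N : ℕ) (x : E), ‖x‖ ≤ N → ∀ k,
      dist (τ (n + (N + k)) (iter f n (N + k) x)) (g n x) ≤ 1 * (1 / 2) ^ k / (1 - 1 / 2) := by
    intro n N x hx k
    refine dist_le_of_le_geometric_of_tendsto (1 / 2) 1 (by norm_num) (hgeo n N x hx) ?_ k
    have h := (tendsto_add_atTop_iff_nat (f := fun k => τ (n + k) (iter f n k x)) N).2 (hg n x)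
    have : (fun k => τ (n + (k + N)) (iter f n (k + N) x)) =
        (fun k => τ (n + (N + k)) (iter f n (N + k) x)) := by
      funext k
      rw [add_comm k N]
    rwa [this] at h
  have hgloc : ∀ n, TendstoLocallyUniformly (fun k x => τ (n + k) (iter f n k x)) (g n) atTop := by
    intro n
    rw [Metric.tendstoLocallyUniformly_iff]
    intro ε hε x
    obtain ⟨N, hN⟩ := exists_nat_ge (‖x‖ + 1)
    refine ⟨closedBall x 1, closedBall_mem_nhds x one_pos, ?_⟩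
    have hgeo0 : Tendsto (fun k : ℕ => 1 * (1 / 2 : ℝ) ^ k / (1 - 1 / 2)) atTop (𝓝 0) := by
      have := tendsto_pow_atTop_nhds_zero_of_lt_one (r := (1 / 2 : ℝ)) (by norm_num) (by norm_num)
      have := (this.const_mul 1).div_const (1 - 1 / 2 : ℝ)
      simpa using this
    have hev := (hgeo0.eventually (gt_mem_nhds hε))
    have hev2 : ∀ᶠ k in atTop, 1 * (1 / 2 : ℝ) ^ (k - N) / (1 - 1 / 2) < ε := by
      have ht : Tendsto (fun k : ℕ => k - N) atTop atTop := tendsto_sub_atTop_nat N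
      exact ht.eventually hev
    filter_upwards [hev2, eventually_ge_atTop N] with k hk hkN y hy
    have hyN : ‖y‖ ≤ N := by
      rw [mem_closedBall, dist_eq_norm] at hy
      have : ‖y‖ ≤ ‖x‖ + ‖y - x‖ := by
        have := norm_add_le x (y - x)
        simpa using this
      linarith
    have h := hgunif n N y hyN (k - N)
    rw [Nat.add_sub_cancel' hkN] at h
    rw [dist_comm]
    exact h.trans_lt hk
  have hgsm : ∀ n, ContDiff ℂ ω (g n) := by
    intro n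
    refine hE (fun k x => τ (n + k) (iter f n k x)) (g n) (fun k => ?_) (hgloc n)
    exact (hτaut (n + k)).c.comp (iter_nice hf n k).smooth
  -- the maps `(τ m)⁻¹ ∘ g m` are close to the identity
  have hclose : ∀ (m : ℕ) (x : E), ‖x‖ ≤ R m → ‖(τ m)⁻¹ (g m x) - x‖ ≤ δ m := by
    intro m x hx
    have hcs : Continuous ((τ m)⁻¹ : Equiv.Perm E) := (hτaut m).cs.continuous
    have h1 : Tendsto (fun k => ‖(τ m)⁻¹ (τ (m + k) (iter f m k x)) - x‖) atTop
        (𝓝 ‖(τ m)⁻¹ (g m x) - x‖) :=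
      (((hcs.tendsto _).comp (hg m x)).sub_const x).norm
    exact le_of_tendsto h1 (Eventually.of_forall fun k => hH k m x hx)
  have hcompat : ∀ (n : ℕ) (x : E), g (n + 1) (f n x) = g n x := by
    intro n x
    have h1 := hg (n + 1) (f n x)
    have h2 := (tendsto_add_atTop_iff_nat (f := fun k => τ (n + k) (iter f n k x)) 1).2 (hg n x)
    refine tendsto_nhds_unique h1 ?_
    have : (fun k => τ (n + 1 + k) (iter f (n + 1) k (f n x))) =
        (fun k => τ (n + (k + 1)) (iter f n (k + 1) x)) := by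
      funext k
      rw [iter_succ', show n + (k + 1) = n + 1 + k by ring]
    rw [this]
    exact h2
  have hcompat' : ∀ (n k : ℕ) (x : E), g (n + k) (iter f n k x) = g n x := by
    intro n k x
    induction k with
    | zero => rfl
    | succ k ih =>
      change g (n + k + 1) (f (n + k) (iter f n k x)) = g n x
      rw [hcompat, ih]
  have hh : ∀ m, Differentiable ℂ (fun x => (τ m)⁻¹ (g m x)) := by
    intro m
    have : ContDiff ℂ ω (fun x => (τ m)⁻¹ (g m x)) := (hτaut m).cs.comp (hgsm m)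
    exact this.differentiable (by simp)
  have hclose4 : ∀ (m : ℕ) (x : E), ‖x‖ ≤ R m → ‖(τ m)⁻¹ (g m x) - x‖ ≤ 1 / 4 := fun m x hx =>
    (hclose m x hx).trans (hδle m)
  refine ⟨τ, g, fun m => ⟨hτaut m, hτQ m⟩, ?_, hcompat, hclose4⟩
  intro n
  refine ⟨hgsm n, ?_, ?_, ?_⟩
  · -- injectivity
    intro x y hxy
    obtain ⟨k, hk⟩ := exists_nat_ge (max ‖x‖ ‖y‖)
    have hkx : ‖x‖ ≤ (n + k : ℕ) := by
      push_cast
      have := (le_max_left _ _).trans hk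
      have := Nat.cast_nonneg (α := ℝ) n
      linarith
    have hky : ‖y‖ ≤ (n + k : ℕ) := by
      push_cast
      have := (le_max_right _ _).trans hk
      have := Nat.cast_nonneg (α := ℝ) n
      linarith
    have hx' := hR1 n k x hkx
    have hy' := hR1 n k y hky
    have := near_id_inj (hh (n + k)) (hclose4 (n + k)) hx' hy' (by
      rw [hcompat', hcompat', hxy])
    exact (iter_nice hf n k).inj this
  · -- derivative
    intro x
    obtain ⟨k, hk⟩ := exists_nat_ge ‖x‖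
    have hkx : ‖x‖ ≤ (n + k : ℕ) := by
      push_cast
      have := Nat.cast_nonneg (α := ℝ) n
      linarith
    have hx' := hR1 n k x hkx
    obtain ⟨L1, hL1⟩ := (iter_nice hf n k).der x
    obtain ⟨L2, hL2⟩ := near_id_der (hh (n + k)) (hclose4 (n + k)) hx'
    obtain ⟨L3, hL3⟩ := (hτaut (n + k)).der ((τ (n + k))⁻¹ (g (n + k) (iter f n k x)))
    refine ⟨(L1.trans L2).trans L3, ?_⟩
    have h12 := hL2.comp x hL1
    have h123 := hL3.comp x h12
    have : g n = (τ (n + k)) ∘ ((fun x => (τ (n + k))⁻¹ (g (n + k) x)) ∘ iter f n k) := by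
      funext z
      simp only [Function.comp, perm_apply_inv]
      rw [hcompat']
    rw [this]
    exact h123
  · -- approximability
    intro r ε hε
    obtain ⟨N, hN⟩ := exists_nat_ge r
    have h0 : Tendsto (fun k : ℕ => (1 / 2 : ℝ) ^ k) atTop (𝓝 0) :=
      tendsto_pow_atTop_nhds_zero_of_lt_one (by norm_num) (by norm_num)
    obtain ⟨k, hk1, hk2⟩ := ((h0.eventually (gt_mem_nhds (half_pos hε))).and
      (eventually_ge_atTop N)).exists
    obtain ⟨ρ, hρa, hρ1, hρ2⟩ := hρ (n + k) n (Finset.mem_range.2 (by omega))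
    have hpow : (1 / 2 : ℝ) ^ (n + k) ≤ ε / 2 := by
      refine le_trans ?_ hk1.le
      exact pow_le_pow_of_le_one (by norm_num) (by norm_num) (by omega)
    refine ⟨ρ * (τ (n + k))⁻¹, hρa.mul (hτaut (n + k)).inv, fun x hx => ?_⟩
    have hxk : ‖x‖ ≤ (n + k : ℕ) := by
      push_cast
      have := Nat.cast_nonneg (α := ℝ) n
      have : (N : ℝ) ≤ k := by exact_mod_cast hk2
      linarith
    have hy := hRbig n k x hxk
    rw [Nat.add_sub_cancel_left] at hρ1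
    have h1 := hρ1 x hxk
    set y := iter f n k x with hydef
    have h2 := hρ2 y ((τ (n + k))⁻¹ (g (n + k) y) - y) hy (hclose (n + k) y hy)
    rw [add_sub_cancel, hydef, hcompat', ← hydef] at h2
    have : (ρ * (τ (n + k))⁻¹) (g n x) - x = (ρ ((τ (n + k))⁻¹ (g n x)) - ρ y) + (ρ y - x) := by
      simp [Equiv.Perm.mul_apply]
    rw [this]
    exact (norm_add_le _ _).trans (by linarith)

end Pool.Agent.Lib_helper93
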