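import Pool.Agent.Lib_helper93.Osgood

open Complex Set Metric Filter
open scoped Real Topology ContDiff

namespace Pool.Agent.Lib_helper93

variable {E : Type*} [NormedAddCommGroup E] [NormedSpace ℂ E]

/-- Holomorphic automorphisms of `E`. -/
structure IsAut (σ : Equiv.Perm E) : Prop where
  c : ContDiff ℂ ω σ
  cs : ContDiff ℂ ω σ.symm

namespace IsAut

theorem one : IsAut (1 : Equiv.Perm E) := ⟨contDiff_id, contDiff_id⟩

theorem mul {σ τ : Equiv.Perm E} (hσ : IsAut σ) (hτ : IsAut τ) : IsAut (σ * τ) :=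
  ⟨hσ.c.comp hτ.c, hτ.cs.comp hσ.cs⟩

theorem inv {σ : Equiv.Perm E} (hσ : IsAut σ) : IsAut σ⁻¹ := ⟨hσ.cs, hσ.c⟩

theorem der {σ : Equiv.Perm E} (hσ : IsAut σ) (x : E) :
    ∃ L : E ≃L[ℂ] E, HasFDerivAt σ (L : E →L[ℂ] E) x := by
  have h1 : HasFDerivAt σ (fderiv ℂ σ x) x :=
    (hσ.c.differentiable (by simp)).differentiableAt.hasFDerivAt
  have h2 : HasFDerivAt σ.symm (fderiv ℂ σ.symm (σ x)) (σ x) :=
    (hσ.cs.differentiable (by simp)).differentiableAt.hasFDerivAt
  have h1' : HasFDerivAt σ (fderiv ℂ σ x) (σ.symm (σ x)) := by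
    simpa using h1
  have h12 := h2.comp x h1
  have h21 := h1'.comp (σ x) h2
  have e12 : (σ.symm ∘ σ : E → E) = id := by
    funext y; simp
  have e21 : (σ ∘ σ.symm : E → E) = id := by
    funext y; simp
  rw [e12] at h12
  rw [e21] at h21
  have u12 := h12.unique (hasFDerivAt_id x)
  have u21 := h21.unique (hasFDerivAt_id (σ x))
  refine ⟨ContinuousLinearEquiv.equivOfInverse (fderiv ℂ σ x) (fderiv ℂ σ.symm (σ x)) ?_ ?_, ?_⟩
  · intro v
    have := congrArg (fun T : E →L[ℂ] E => T v) u12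
    simpa using this
  · intro v
    have := congrArg (fun T : E →L[ℂ] E => T v) u21
    simpa using this
  · exact h1

end IsAut

/-- A *nice* map: injective entire map with invertible derivatives that is approximable by
automorphisms, in the sense that for suitable automorphisms `σ`, `σ ∘ f` is as close to the
identity as we want, on any given ball. -/
structure Nice (f : E → E) : Prop where
  smooth : ContDiff ℂ ω f
  inj : Function.Injective f
  der : ∀ x, ∃ L : E ≃L[ℂ] E, HasFDerivAt f (L : E →L[ℂ] E) x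
  app : ∀ (R ε : ℝ), 0 < ε → ∃ σ : Equiv.Perm E, IsAut σ ∧ ∀ x, ‖x‖ ≤ R → ‖σ (f x) - x‖ ≤ ε

theorem unif [ProperSpace E] {f : E → E} (hf : Continuous f) (R : ℝ) {ε : ℝ} (hε : 0 < ε) :
    ∀ᶠ δ in 𝓝[>] (0 : ℝ), ∀ y e : E, ‖y‖ ≤ R → ‖e‖ ≤ δ → ‖f (y + e) - f y‖ ≤ ε := by
  have hK : IsCompact (closedBall (0 : E) (R + 1)) := isCompact_closedBall _ _
  have hu : UniformContinuousOn f (closedBall (0 : E) (R + 1)) :=
    hK.uniformContinuousOn_of_continuous hf.continuousOn
  rw [Metric.uniformContinuousOn_iff] at hu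
  obtain ⟨δ, hδ, h⟩ := hu ε hε
  have hpos : (0 : ℝ) < min 1 (δ / 2) := by positivity
  have : ∀ᶠ t in 𝓝[>] (0 : ℝ), t ≤ min 1 (δ / 2) := by
    have := Ioc_mem_nhdsGT hpos
    filter_upwards [this] with t ht using ht.2
  filter_upwards [this] with t ht y e hy he
  have he' : ‖e‖ ≤ min 1 (δ / 2) := he.trans ht
  have he1 : ‖e‖ ≤ 1 := he'.trans (min_le_left _ _)
  have he2 : ‖e‖ ≤ δ / 2 := he'.trans (min_le_right _ _)
  have := h (y + e) (by
    rw [mem_closedBall_zero_iff]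
    exact (norm_add_le _ _).trans (by linarith)) y (by
    rw [mem_closedBall_zero_iff]; linarith) (by
    rw [dist_eq_norm]
    simp only [add_sub_cancel_left]
    linarith)
  rw [dist_eq_norm] at this
  exact this.le

theorem unif' [ProperSpace E] {f : E → E} (hf : Continuous f) (R : ℝ) {ε : ℝ} (hε : 0 < ε) :
    ∃ δ : ℝ, 0 < δ ∧ ∀ y e : E, ‖y‖ ≤ R → ‖e‖ ≤ δ → ‖f (y + e) - f y‖ ≤ ε := by
  obtain ⟨δ, hδ, h0⟩ := ((unif hf R hε).and self_mem_nhdsWithin).exists
  exact ⟨δ, h0, hδ⟩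

theorem bound [ProperSpace E] {f : E → E} (hf : Continuous f) (R : ℝ) :
    ∃ B : ℝ, ∀ x : E, ‖x‖ ≤ R → ‖f x‖ ≤ B := by
  have hK : IsCompact (closedBall (0 : E) R) := isCompact_closedBall _ _
  obtain ⟨B, hB⟩ := hK.exists_bound_of_continuousOn hf.continuousOn
  exact ⟨B, fun x hx => hB x (by rwa [mem_closedBall_zero_iff])⟩

namespace Nice

theorem id : Nice (id : E → E) where
  smooth := contDiff_id
  inj := Function.injective_id
  der := fun x => ⟨ContinuousLinearEquiv.refl ℂ E, hasFDerivAt_id x⟩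
  app := fun R ε hε => ⟨1, IsAut.one, fun x _ => by simp [hε.le]⟩

theorem comp [ProperSpace E] {g f : E → E} (hg : Nice g) (hf : Nice f) : Nice (g ∘ f) where
  smooth := hg.smooth.comp hf.smooth
  inj := hg.inj.comp hf.inj
  der := by
    intro x
    obtain ⟨L, hL⟩ := hf.der x
    obtain ⟨L', hL'⟩ := hg.der (f x)
    exact ⟨L.trans L', hL'.comp x hL⟩
  app := by
    intro R ε hε
    obtain ⟨σ, hσ, h1⟩ := hf.app R (ε / 2) (by positivity)
    obtain ⟨B, hB⟩ := bound hf.smooth.continuous R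
    obtain ⟨δ, hδ, h2⟩ := unif' hσ.c.continuous B (ε := ε / 2) (by positivity)
    obtain ⟨σ', hσ', h3⟩ := hg.app B δ hδ
    refine ⟨σ * σ', hσ.mul hσ', fun x hx => ?_⟩
    have h4 := h2 (f x) (σ' (g (f x)) - f x) (hB x hx) (h3 _ (hB x hx))
    have h5 := h1 x hx
    simp only [add_sub_cancel] at h4
    have : (σ * σ') ((g ∘ f) x) - x = (σ (σ' (g (f x))) - σ (f x)) + (σ (f x) - x) := by
      simp [Equiv.Perm.mul_apply]
    rw [this]
    exact (norm_add_le _ _).trans (by linarith)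

end Nice

/-- Iterated composition `f (n+k-1) ∘ ⋯ ∘ f n`. -/
def iter (f : ℕ → E → E) (n : ℕ) : ℕ → E → E
  | 0 => id
  | (k + 1) => f (n + k) ∘ iter f n k

theorem iter_succ' (f : ℕ → E → E) (n k : ℕ) (x : E) :
    iter f n (k + 1) x = iter f (n + 1) k (f n x) := by
  induction k with
  | zero => rfl
  | succ k ih =>
    change f (n + (k + 1)) (iter f n (k + 1) x) = f (n + 1 + k) (iter f (n + 1) k (f n x))
    rw [ih, show n + (k + 1) = n + 1 + k by ring]

theorem iter_nice [ProperSpace E] {f : ℕ → E → E} (hf : ∀ n, Nice (f n)) (n k : ℕ) :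
    Nice (iter f n k) := by
  induction k with
  | zero => exact Nice.id
  | succ k ih => exact (hf (n + k)).comp ih

/-- Dependent choice. -/
theorem dep_choice {S : Type*} (P : ℕ → S → Prop) (r : ℕ → S → S → Prop) (s0 : S) (h0 : P 0 s0)
    (hstep : ∀ m s, P m s → ∃ s', P (m + 1) s' ∧ r m s s') :
    ∃ u : ℕ → S, (∀ m, P m (u m)) ∧ ∀ m, r m (u m) (u (m + 1)) := by
  choose! next hP hr using hstep
  let u : ℕ → S := fun n => Nat.rec s0 (fun m s => next m s) n
  have hu : ∀ m, P m (u m) := by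
    intro m
    induction m with
    | zero => exact h0
    | succ m ih => exact hP m (u m) ih
  exact ⟨u, hu, fun m => hr m (u m) (hu m)⟩

/-- Cauchy estimate. -/
theorem cauchy_est {e : E → E} (he : Differentiable ℂ e) {R C : ℝ}
    (h : ∀ x, ‖x‖ ≤ R → ‖e x‖ ≤ C) {x : E} (hx : ‖x‖ ≤ R - 1) : ‖fderiv ℂ e x‖ ≤ C := by
  have hC : 0 ≤ C := (norm_nonneg _).trans (h x (by linarith))
  refine ContinuousLinearMap.opNorm_le_bound _ hC ?_
  intro v
  rcases eq_or_ne v 0 with rfl | hv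
  · simp
  have hvn : (0 : ℝ) < ‖v‖ := norm_pos_iff.2 hv
  set w : E := ((‖v‖⁻¹ : ℝ) : ℂ) • v with hw
  have hwn : ‖w‖ = 1 := by
    rw [hw, norm_smul]
    simp [hvn.ne']
  have hvw : v = ((‖v‖ : ℝ) : ℂ) • w := by
    rw [hw, smul_smul]
    have : ((‖v‖ : ℝ) : ℂ) * ((‖v‖⁻¹ : ℝ) : ℂ) = 1 := by
      rw [← Complex.ofReal_mul, mul_inv_cancel₀ hvn.ne']
      simp
    rw [this, one_smul]
  have hder : HasDerivAt (fun z : ℂ => e (x + z • w)) ((fderiv ℂ e x) w) 0 := by
    have h1 : HasFDerivAt e (fderiv ℂ e x) (x + (0 : ℂ) • w) := by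
      simpa using (he x).hasFDerivAt
    have h2 : HasDerivAt (fun z : ℂ => x + z • w) w 0 := by
      have := ((hasDerivAt_id (0 : ℂ)).smul_const w).const_add x
      simpa using this
    exact h1.comp_hasDerivAt 0 h2
  have hdiff : Differentiable ℂ (fun z : ℂ => e (x + z • w)) := by
    exact he.comp (by fun_prop)
  have hb : ‖deriv (fun z : ℂ => e (x + z • w)) 0‖ ≤ C / 1 := by
    refine Complex.norm_deriv_le_of_forall_mem_sphere_norm_le one_pos hdiff.diffContOnCl ?_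
    intro z hz
    refine h _ ((norm_add_le _ _).trans ?_)
    rw [norm_smul, hwn]
    rw [mem_sphere_zero_iff_norm] at hz
    rw [hz]
    linarith
  rw [hder.deriv, div_one] at hb
  conv_lhs => rw [hvw]
  rw [map_smul, norm_smul]
  have : ‖((‖v‖ : ℝ) : ℂ)‖ = ‖v‖ := by simp
  rw [this, mul_comm]
  gcongr

end Pool.Agent.Lib_helper93
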