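import Pool.Agent.Lib_helper93.Colimit

open Set Cardinal

namespace Pool.Agent.Lib_helper93

/-- The first uncountable well order, as a type. -/
abbrev W1 : Type := (Cardinal.aleph.{0} 1).ord.ToType

theorem W1_Iio (w : W1) : (Iio w).Countable := by
  have h := Cardinal.mk_Iio_lt w (by rw [mk_ord_toType, Ordinal.type_toType])
  rw [mk_ord_toType] at h
  rwa [← Cardinal.le_aleph0_iff_set_countable, ← Cardinal.lt_aleph_one_iff]

theorem W1_Iic (w : W1) : (Iic w).Countable := by
  rw [← Iio_insert]
  exact (W1_Iio w).insert w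

theorem W1_not_countable : ¬ (univ : Set W1).Countable := by
  rw [← Cardinal.le_aleph0_iff_set_countable, mk_univ, mk_ord_toType, not_le]
  exact Cardinal.aleph0_lt_aleph_one

instance : Nonempty W1 := by
  by_contra h
  rw [not_nonempty_iff] at h
  exact W1_not_countable (Set.to_countable _)

theorem W1_bdd (s : Set W1) (hs : s.Countable) : ∃ β, ∀ α ∈ s, α < β := by
  by_contra h
  push Not at h
  refine W1_not_countable ?_
  have : (univ : Set W1) ⊆ ⋃ α ∈ s, Iic α := by
    intro β _
    obtain ⟨α, hα, hβ⟩ := h β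
    exact mem_biUnion hα hβ
  exact (hs.biUnion fun α _ => W1_Iic α).mono this

/-- There is a nonseparable connected Hausdorff complex manifold of dimension two. -/
theorem exists_nonseparable : ∃ (M : Type) (_ : TopologicalSpace M) (_ : ChartedSpace E2 M),
    IsManifold (modelWithCornersSelf ℂ E2) (⊤ : WithTop ℕ∞) M ∧
      T2Space M ∧ ConnectedSpace M ∧ ¬ TopologicalSpace.SeparableSpace M := by
  obtain ⟨φ, h1, h2, h3, h4⟩ := exists_system (W := W1) W1_Iio
  let S : Sys W1 := ⟨φ, h1, h2, h3⟩
  exact ⟨S.M, inferInstance, inferInstance, S.isManifold, S.t2, S.connected,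
    S.not_separable W1_bdd h4⟩

end Pool.Agent.Lib_helper93
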