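import Mathlib

open Complex MeasureTheory Set Metric
open scoped Real Topology ContDiff BoundedContinuousFunction

namespace Pool.Agent.Lib_helper93

/-- The bounded continuous function `(s, t) ↦ circleMap c 1 s`. -/
noncomputable def circFst (c : ℂ) : (ℝ × ℝ) →ᵇ ℂ :=
  BoundedContinuousFunction.ofNormedAddCommGroup (fun p : ℝ × ℝ => circleMap c 1 p.1)
    ((continuous_circleMap c 1).comp continuous_fst) (‖c‖ + 1) (by
      intro p
      have : circleMap c 1 p.1 = c + (circleMap c 1 p.1 - c) := by ring
      rw [this]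
      refine (norm_add_le _ _).trans ?_
      gcongr
      have := circleMap_sub_center c 1 p.1
      rw [this]
      simp)

/-- The bounded continuous function `(s, t) ↦ circleMap c 1 t`. -/
noncomputable def circSnd (c : ℂ) : (ℝ × ℝ) →ᵇ ℂ :=
  BoundedContinuousFunction.ofNormedAddCommGroup (fun p : ℝ × ℝ => circleMap c 1 p.2)
    ((continuous_circleMap c 1).comp continuous_snd) (‖c‖ + 1) (by
      intro p
      have : circleMap c 1 p.2 = c + (circleMap c 1 p.2 - c) := by ring
      rw [this]
      refine (norm_add_le _ _).trans ?_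
      gcongr
      have := circleMap_sub_center c 1 p.2
      rw [this]
      simp)

@[simp] lemma circFst_apply (c : ℂ) (p : ℝ × ℝ) : circFst c p = circleMap c 1 p.1 := rfl
@[simp] lemma circSnd_apply (c : ℂ) (p : ℝ × ℝ) : circSnd c p = circleMap c 1 p.2 := rfl

/-- Integration functional. -/
noncomputable def intFun {F : Type*} [NormedAddCommGroup F] [NormedSpace ℂ F]
    (g : ℝ × ℝ → F) (hg : Continuous g) : ((ℝ × ℝ) →ᵇ ℂ) →L[ℂ] F :=
  LinearMap.mkContinuous
    { toFun := fun φ => ∫ p in Icc (0 : ℝ) (2 * π) ×ˢ Icc (0 : ℝ) (2 * π), φ p • g p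
      map_add' := by
        intro φ ψ
        have hint : ∀ χ : (ℝ × ℝ) →ᵇ ℂ,
            IntegrableOn (fun p => χ p • g p) (Icc (0 : ℝ) (2 * π) ×ˢ Icc (0 : ℝ) (2 * π)) := by
          intro χ
          exact (χ.continuous.smul hg).continuousOn.integrableOn_compact
            (isCompact_Icc.prod isCompact_Icc)
        rw [← integral_add (hint φ) (hint ψ)]
        simp [add_smul]
      map_smul' := by
        intro c φ
        simp only [BoundedContinuousFunction.coe_smul, RingHom.id_apply, smul_eq_mul, mul_smul]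
        rw [integral_smul] }
    (∫ p in Icc (0 : ℝ) (2 * π) ×ˢ Icc (0 : ℝ) (2 * π), ‖g p‖) (by
      intro φ
      simp only [LinearMap.coe_mk, AddHom.coe_mk]
      refine (norm_integral_le_integral_norm _).trans ?_
      rw [mul_comm (∫ p in Icc (0 : ℝ) (2 * π) ×ˢ Icc (0 : ℝ) (2 * π), ‖g p‖) ‖φ‖,
        ← integral_const_mul]
      refine integral_mono_of_nonneg (Filter.Eventually.of_forall fun p => norm_nonneg _) ?_ ?_
      · refine Integrable.const_mul ?_ _
        exact (hg.norm).continuousOn.integrableOn_compact (isCompact_Icc.prod isCompact_Icc)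
      · refine Filter.Eventually.of_forall fun p => ?_
        simp only [norm_smul]
        gcongr
        exact φ.norm_coe_le_norm p)

lemma intFun_apply {F : Type*} [NormedAddCommGroup F] [NormedSpace ℂ F]
    (g : ℝ × ℝ → F) (hg : Continuous g) (φ : (ℝ × ℝ) →ᵇ ℂ) :
    intFun g hg φ = ∫ p in Icc (0 : ℝ) (2 * π) ×ˢ Icc (0 : ℝ) (2 * π), φ p • g p := rfl

/-- **Osgood's lemma** for entire functions of two variables: a continuous, separately holomorphic
function `ℂ × ℂ → F` is analytic. -/
theorem osgood_analyticAt {F : Type*} [NormedAddCommGroup F] [NormedSpace ℂ F] [CompleteSpace F]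
    {f : ℂ × ℂ → F} (hc : Continuous f) (h1 : ∀ y, Differentiable ℂ (fun x => f (x, y)))
    (h2 : ∀ x, Differentiable ℂ (fun y => f (x, y))) (p : ℂ × ℂ) : AnalyticAt ℂ f p := by
  obtain ⟨x0, y0⟩ := p
  -- the algebra valued kernel
  set A : ℂ × ℂ → ((ℝ × ℝ) →ᵇ ℂ) := fun q =>
    (circFst x0 - q.1 • (1 : (ℝ × ℝ) →ᵇ ℂ)) * (circSnd y0 - q.2 • (1 : (ℝ × ℝ) →ᵇ ℂ)) with hA
  have hAapp : ∀ q s, A q s = (circleMap x0 1 s.1 - q.1) * (circleMap y0 1 s.2 - q.2) := by
    intro q s
    simp [hA]
  have hAan : AnalyticAt ℂ A (x0, y0) := by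
    refine AnalyticAt.mul ?_ ?_
    · refine analyticAt_const.sub ?_
      exact analyticAt_fst.smul analyticAt_const
    · refine analyticAt_const.sub ?_
      exact analyticAt_snd.smul analyticAt_const
  have hunit : IsUnit (A (x0, y0)) := by
    have hne : ∀ s : ℝ × ℝ, A (x0, y0) s ≠ 0 := by
      intro s
      rw [hAapp]
      simp
    have hnorm : ∀ s : ℝ × ℝ, ‖A (x0, y0) s‖ = 1 := by
      intro s
      rw [hAapp]
      simp
    let B : (ℝ × ℝ) →ᵇ ℂ := BoundedContinuousFunction.ofNormedAddCommGroup
      (fun s => (A (x0, y0) s)⁻¹) ((A (x0, y0)).continuous.inv₀ hne) 1 (by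
        intro s
        rw [norm_inv, hnorm]
        simp)
    refine IsUnit.of_mul_eq_one B ?_
    ext s
    simp only [BoundedContinuousFunction.coe_mul, Pi.mul_apply, BoundedContinuousFunction.coe_one,
      Pi.one_apply]
    exact mul_inv_cancel₀ (hne s)
  obtain ⟨u, hu⟩ := hunit
  have hinv : AnalyticAt ℂ (fun q => Ring.inverse (A q)) (x0, y0) := by
    have := analyticAt_inverse (𝕜 := ℂ) u
    rw [hu] at this
    exact this.comp hAan
  -- the density
  set g : ℝ × ℝ → F := fun s =>
    (deriv (circleMap x0 1) s.1 * deriv (circleMap y0 1) s.2) •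
      f (circleMap x0 1 s.1, circleMap y0 1 s.2) with hgdef
  have hg : Continuous g := by
    have e1 : Continuous (deriv (circleMap x0 1)) := by
      have : deriv (circleMap x0 1) = fun θ => circleMap 0 1 θ * I := by
        funext θ
        exact deriv_circleMap x0 1 θ
      rw [this]
      exact (continuous_circleMap 0 1).mul continuous_const
    have e2 : Continuous (deriv (circleMap y0 1)) := by
      have : deriv (circleMap y0 1) = fun θ => circleMap 0 1 θ * I := by
        funext θ
        exact deriv_circleMap y0 1 θ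
      rw [this]
      exact (continuous_circleMap 0 1).mul continuous_const
    refine Continuous.smul ?_ ?_
    · exact (e1.comp continuous_fst).mul (e2.comp continuous_snd)
    · exact hc.comp (((continuous_circleMap x0 1).comp continuous_fst).prodMk
        ((continuous_circleMap y0 1).comp continuous_snd))
  have hfan : AnalyticAt ℂ (fun q => ((2 * π * I : ℂ)⁻¹ * (2 * π * I : ℂ)⁻¹) •
      intFun g hg (Ring.inverse (A q))) (x0, y0) := by
    refine AnalyticAt.const_smul ?_
    exact ((intFun g hg).analyticAt _).comp hinv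
  refine hfan.congr ?_
  -- equality near the point
  have hunits : ∀ᶠ q in 𝓝 (x0, y0), IsUnit (A q) := by
    have : IsOpen {a : (ℝ × ℝ) →ᵇ ℂ | IsUnit a} := Units.isOpen
    exact hAan.continuousAt.eventually (this.mem_nhds (by
      exact ⟨u, hu⟩))
  have hball : ∀ᶠ q : ℂ × ℂ in 𝓝 (x0, y0), q.1 ∈ ball x0 1 ∧ q.2 ∈ ball y0 1 := by
    rw [nhds_prod_eq]
    exact Filter.prod_mem_prod (ball_mem_nhds x0 one_pos) (ball_mem_nhds y0 one_pos)
  filter_upwards [hunits, hball] with q hq hqb
  obtain ⟨x, y⟩ := q
  obtain ⟨hx, hy⟩ := hqb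
  simp only at hx hy
  have hinvapp : ∀ s, (Ring.inverse (A (x, y))) s =
      (circleMap x0 1 s.1 - x)⁻¹ * (circleMap y0 1 s.2 - y)⁻¹ := by
    intro s
    have := Ring.mul_inverse_cancel _ hq
    have h := congrArg (fun φ : (ℝ × ℝ) →ᵇ ℂ => φ s) this
    simp only [BoundedContinuousFunction.coe_mul, Pi.mul_apply, BoundedContinuousFunction.coe_one,
      Pi.one_apply, hAapp] at h
    rw [← mul_inv]
    exact (eq_inv_of_mul_eq_one_right h)
  have hint1 : IntegrableOn (fun s : ℝ × ℝ => (Ring.inverse (A (x, y))) s • g s)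
      (Icc (0 : ℝ) (2 * π) ×ˢ Icc (0 : ℝ) (2 * π)) (volume.prod volume) := by
    exact ((Ring.inverse (A (x, y))).continuous.smul hg).continuousOn.integrableOn_compact
      (isCompact_Icc.prod isCompact_Icc)
  have hcauchy1 : f (x, y) = (2 * π * I : ℂ)⁻¹ • ∮ z in C(x0, 1), (z - x)⁻¹ • f (z, y) := by
    have := (h1 y).diffContOnCl (s := ball x0 1)
    exact (this.two_pi_i_inv_smul_circleIntegral_sub_inv_smul hx).symm
  have hcauchy2 : ∀ z, f (z, y) = (2 * π * I : ℂ)⁻¹ • ∮ w in C(y0, 1), (w - y)⁻¹ • f (z, w) := by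
    intro z
    have := (h2 z).diffContOnCl (s := ball y0 1)
    exact (this.two_pi_i_inv_smul_circleIntegral_sub_inv_smul hy).symm
  rw [intFun_apply]
  change _ = f (x, y)
  rw [hcauchy1]
  have : (fun z => (z - x)⁻¹ • f (z, y)) = fun z => (z - x)⁻¹ • (2 * π * I : ℂ)⁻¹ •
      ∮ w in C(y0, 1), (w - y)⁻¹ • f (z, w) := by
    funext z
    rw [← hcauchy2 z]
  rw [this, mul_smul]
  congr 1
  rw [circleIntegral_def_Icc]
  rw [show (volume : Measure (ℝ × ℝ)) = (volume : Measure ℝ).prod volume from rfl]
  rw [setIntegral_prod _ hint1, ← integral_smul]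
  refine setIntegral_congr_fun measurableSet_Icc ?_
  intro s _
  simp only
  rw [circleIntegral_def_Icc]
  rw [smul_comm (circleMap x0 1 s - x)⁻¹ ((2 * π * I : ℂ)⁻¹),
    smul_comm (deriv (circleMap x0 1) s) ((2 * π * I : ℂ)⁻¹)]
  congr 1
  rw [← integral_smul, ← integral_smul]
  refine setIntegral_congr_fun measurableSet_Icc ?_
  intro t _
  simp only [hinvapp, hgdef, smul_smul]
  congr 1
  ring

/-- A locally uniform limit of entire functions on `ℂ × ℂ` is entire (analytic). -/
theorem contDiff_of_tendstoLocallyUniformly_prod {F : Type*} [NormedAddCommGroup F]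
    [NormedSpace ℂ F] [CompleteSpace F] {G : ℕ → ℂ × ℂ → F} {g : ℂ × ℂ → F}
    (hG : ∀ k, ContDiff ℂ ω (G k)) (h : TendstoLocallyUniformly G g Filter.atTop) :
    ContDiff ℂ ω g := by
  have hcont : Continuous g := h.continuous (Filter.Frequently.of_forall fun k => (hG k).continuous)
  have hloc := tendstoLocallyUniformlyOn_univ.2 h
  rw [contDiff_omega_iff_analyticOnNhd]
  intro p _
  refine osgood_analyticAt hcont ?_ ?_ p
  · intro y
    have hy : Continuous (fun x : ℂ => (x, y)) := by fun_prop
    have : TendstoLocallyUniformlyOn (fun k x => G k (x, y)) (fun x => g (x, y)) Filter.atTop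
        univ := by
      have := hloc.comp (fun x : ℂ => (x, y)) (t := univ) (fun _ _ => mem_univ _) hy.continuousOn
      exact this
    have hd := this.differentiableOn (Filter.Eventually.of_forall fun k => ?_) isOpen_univ
    · exact differentiableOn_univ.1 hd
    · have : Differentiable ℂ (G k) := (hG k).differentiable (by simp)
      exact (this.comp (by fun_prop : Differentiable ℂ (fun x : ℂ => (x, y)))).differentiableOn
  · intro x
    have hx : Continuous (fun y : ℂ => (x, y)) := by fun_prop
    have : TendstoLocallyUniformlyOn (fun k y => G k (x, y)) (fun y => g (x, y)) Filter.atTop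
        univ := by
      have := hloc.comp (fun y : ℂ => (x, y)) (t := univ) (fun _ _ => mem_univ _) hx.continuousOn
      exact this
    have hd := this.differentiableOn (Filter.Eventually.of_forall fun k => ?_) isOpen_univ
    · exact differentiableOn_univ.1 hd
    · have : Differentiable ℂ (G k) := (hG k).differentiable (by simp)
      exact (this.comp (by fun_prop : Differentiable ℂ (fun y : ℂ => (x, y)))).differentiableOn

/-- `E` is *limit closed* if locally uniform limits of analytic self maps of `E` are analytic. -/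
def LimClosed (E : Type*) [NormedAddCommGroup E] [NormedSpace ℂ E] : Prop :=
  ∀ (G : ℕ → E → E) (g : E → E), (∀ k, ContDiff ℂ ω (G k)) →
    TendstoLocallyUniformly G g Filter.atTop → ContDiff ℂ ω g

/-- The linear identification `ℂ × ℂ ≃ ℂ²`. -/
noncomputable def prodEquiv : (ℂ × ℂ) ≃L[ℂ] EuclideanSpace ℂ (Fin 2) :=
  (ContinuousLinearEquiv.finTwoArrow ℂ ℂ).symm.trans (EuclideanSpace.equiv (Fin 2) ℂ).symm

theorem limClosed_two : LimClosed (EuclideanSpace ℂ (Fin 2)) := by
  intro G g hG h
  have h1 : ContDiff ℂ ω (g ∘ prodEquiv) := by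
    refine contDiff_of_tendstoLocallyUniformly_prod (G := fun k => G k ∘ prodEquiv) ?_ ?_
    · intro k
      exact (hG k).comp prodEquiv.contDiff
    · exact h.comp _ prodEquiv.continuous
  have h2 : g = (g ∘ prodEquiv) ∘ prodEquiv.symm := by
    funext x
    simp
  rw [h2]
  exact h1.comp prodEquiv.symm.contDiff

end Pool.Agent.Lib_helper93
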