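import Pool.Agent.Lib_helper93.Base

open Complex Set Metric Filter
open scoped Real Topology ContDiff

namespace Pool.Agent.Lib_helper93

section
variable {W : Type*} [LinearOrder W]

open Classical in
/-- The map from stage `α` to stage `γ`, with identity for `α = γ`. `Φ γ α` is the map from
stage `α` to stage `γ`. -/
noncomputable def ee (Φ : W → W → E2 → E2) (α γ : W) : E2 → E2 :=
  if α = γ then id else Φ γ α

theorem ee_self (Φ : W → W → E2 → E2) (α : W) : ee Φ α α = id := by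
  simp [ee]

theorem ee_of_lt (Φ : W → W → E2 → E2) {α γ : W} (h : α < γ) : ee Φ α γ = Φ γ α := by
  simp [ee, h.ne]

/-- The extension property at stage `β`. -/
def Good (β : W) (IH : ∀ γ, γ < β → (W → E2 → E2)) (ψ : W → E2 → E2) : Prop :=
  (∀ α, α < β → Nice (ψ α)) ∧
  (∀ α γ (hγ : γ < β), α < γ → ∀ x, ψ γ (IH γ hγ α x) = ψ α x) ∧
  ∃ U : Set E2, IsOpen U ∧ U.Nonempty ∧ ∀ α, α < β → Disjoint U (range (ψ α))

theorem exists_good (β : W) (hβ : (Iio β).Countable) (Φ : W → W → E2 → E2)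
    (hΦ : ∀ γ, γ < β → Good γ (fun δ _ => Φ δ) (Φ γ)) : ∃ ψ, Good β (fun γ _ => Φ γ) ψ := by
  classical
  rcases (Iio β).eq_empty_or_nonempty with hempty | hne
  · refine ⟨fun _ => id, ?_, ?_, univ, isOpen_univ, univ_nonempty, ?_⟩
    · intro α hα
      exact absurd (mem_Iio.2 hα) (by rw [hempty]; simp)
    · intro α γ hγ _
      exact absurd (mem_Iio.2 hγ) (by rw [hempty]; simp)
    · intro α hα
      exact absurd (mem_Iio.2 hα) (by rw [hempty]; simp)
  have : Nonempty (Iio β) := hne.to_subtype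
  have : Countable (Iio β) := hβ.to_subtype
  obtain ⟨a, ha, hat⟩ := Filter.exists_seq_monotone_tendsto_atTop_atTop (Iio β)
  have hcof : ∀ γ, γ < β → ∃ n, γ ≤ (a n : W) := by
    intro γ hγ
    obtain ⟨n, hn⟩ := (hat.eventually (eventually_ge_atTop (⟨γ, hγ⟩ : Iio β))).exists
    exact ⟨n, hn⟩
  have haβ : ∀ n, (a n : W) < β := fun n => (a n).2
  have ham : ∀ n, (a n : W) ≤ a (n + 1) := fun n => ha (Nat.le_succ n)
  have heN : ∀ α γ, α ≤ γ → γ < β → Nice (ee Φ α γ) := by
    intro α γ hαγ hγ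
    rcases hαγ.eq_or_lt with rfl | h
    · rw [ee_self]; exact Nice.id
    · rw [ee_of_lt Φ h]; exact (hΦ γ hγ).1 α h
  have hec : ∀ α γ δ, α ≤ γ → γ ≤ δ → δ < β → ∀ x, ee Φ γ δ (ee Φ α γ x) = ee Φ α δ x := by
    intro α γ δ hαγ hγδ hδ x
    rcases hαγ.eq_or_lt with rfl | h1
    · rw [ee_self]; rfl
    rcases hγδ.eq_or_lt with rfl | h2
    · rw [ee_self]; rfl
    rw [ee_of_lt Φ h1, ee_of_lt Φ h2, ee_of_lt Φ (h1.trans h2)]
    exact (hΦ δ hδ).2.1 α γ h2 h1 x
  obtain ⟨g, hgN, hgc, U, hU, hUne, hUd⟩ := cap_step (fun n => ee Φ (a n) (a (n + 1)))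
    (fun n => heN _ _ (ham n) (haβ _))
  have hind : ∀ (α : W) (n : ℕ), α ≤ a n → ∀ (k : ℕ) (x : E2),
      g (n + k) (ee Φ α (a (n + k)) x) = g n (ee Φ α (a n) x) := by
    intro α n hn k x
    induction k with
    | zero => rfl
    | succ k ih =>
      have h1 : α ≤ a (n + k) := hn.trans (ha (Nat.le_add_right n k))
      have h2 := hgc (n + k) (ee Φ α (a (n + k)) x)
      rw [hec α (a (n + k)) (a (n + k + 1)) h1 (ham _) (haβ _)] at h2
      rw [← ih]
      exact h2
  have hind' : ∀ (α : W) (n m : ℕ), α ≤ a n → α ≤ a m → ∀ (x : E2),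
      g m (ee Φ α (a m) x) = g n (ee Φ α (a n) x) := by
    intro α n m hn hm x
    rcases le_total n m with h | h
    · obtain ⟨k, rfl⟩ := Nat.exists_eq_add_of_le h
      exact hind α n hn k x
    · obtain ⟨k, rfl⟩ := Nat.exists_eq_add_of_le h
      exact (hind α m hm k x).symm
  choose! N hN using hcof
  refine ⟨fun γ => g (N γ) ∘ ee Φ γ (a (N γ)), ?_, ?_, U, hU, hUne, ?_⟩
  · intro α hα
    exact (hgN _).comp (heN _ _ (hN α hα) (haβ _))
  · intro α γ hγ hαγ x
    have h1 : α < β := hαγ.trans hγ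
    change g (N γ) (ee Φ γ (a (N γ)) (Φ γ α x)) = g (N α) (ee Φ α (a (N α)) x)
    rw [← ee_of_lt Φ hαγ, hec α γ (a (N γ)) hαγ.le (hN γ hγ) (haβ _)]
    exact hind' α (N α) (N γ) (hN α h1) (hαγ.le.trans (hN γ hγ)) x
  · intro α _
    exact (hUd _).mono_right (range_comp_subset_range _ _)

/-- A coherent system of nice maps over a well ordered set with countable initial segments, where
at each stage the images of all previous stages miss a common nonempty open set. -/
theorem exists_system [WellFoundedLT W] (hW : ∀ w : W, (Iio w).Countable) :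
    ∃ φ : W → W → E2 → E2, (∀ α, φ α α = id) ∧ (∀ α β, α ≤ β → Nice (φ α β)) ∧
      (∀ α β γ, α ≤ β → β ≤ γ → ∀ x, φ β γ (φ α β x) = φ α γ x) ∧
      ∀ β, ∃ U : Set E2, IsOpen U ∧ U.Nonempty ∧ ∀ α, α < β → Disjoint U (range (φ α β)) := by
  classical
  let F : ∀ β : W, (∀ γ, γ < β → (W → E2 → E2)) → (W → E2 → E2) := fun β IH =>
    Classical.epsilon (Good β IH)
  let Φ : W → W → E2 → E2 := (wellFounded_lt (α := W)).fix F
  have hfix : ∀ β, Φ β = Classical.epsilon (Good β (fun γ _ => Φ γ)) := fun β =>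
    (wellFounded_lt (α := W)).fix_eq F β
  have hgood : ∀ β, Good β (fun γ _ => Φ γ) (Φ β) := by
    intro β
    induction β using WellFoundedLT.induction with
    | ind β ih =>
      have := Classical.epsilon_spec (exists_good β (hW β) Φ ih)
      rwa [← hfix β] at this
  refine ⟨ee Φ, ee_self Φ, ?_, ?_, ?_⟩
  · intro α β h
    rcases h.eq_or_lt with rfl | h
    · rw [ee_self]; exact Nice.id
    · rw [ee_of_lt Φ h]; exact (hgood β).1 α h
  · intro α β γ h1 h2 x
    rcases h1.eq_or_lt with rfl | h1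
    · rw [ee_self]; rfl
    rcases h2.eq_or_lt with rfl | h2
    · rw [ee_self]; rfl
    rw [ee_of_lt Φ h1, ee_of_lt Φ h2, ee_of_lt Φ (h1.trans h2)]
    exact (hgood γ).2.1 α β h2 h1 x
  · intro β
    obtain ⟨U, hU, hUne, h⟩ := (hgood β).2.2
    refine ⟨U, hU, hUne, fun α hα => ?_⟩
    rw [ee_of_lt Φ hα]
    exact h α hα

end

end Pool.Agent.Lib_helper93
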